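import Pool.Agent.Lib.MP_d2d690_an.Final

/-!
# Nivat's conjecture

A configuration `η : ℤ × ℤ → A`, `A` finite, which has at most `n * k` different rectangular
`n × k` patterns for one pair `n, k ≥ 1` has a nonzero period.

Outline of the proof (`Lib/MP_d2d690_an`). (0) A product of `T^v - 1` annihilates `η` (Frobenius and
Lagrange interpolation). (1) If `x, y` in the orbit closure differ by a configuration `e ≠ 0` which
vanishes on a half plane, with direction `w` and minimal polynomial `Φ` in `T^w`, then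
`P(B) ≥ P_Φ(B⁻) + |B| - |B⁻|` where `P_Φ` is the complexity of `Φ(T^w)η`: a finite set of vectors has
at least as many elements as its image under a linear map plus the dimension of the span of the
differences inside the fibres. This reduces everything to configurations annihilated by
`(T^v - 1)(T^w - 1)`. (2) For these the orbit closure contains parallelograms with half plane
differences in two directions, and the functions `1`, the coordinates and certain products
of two linear functionals are linearly independent on the set of patterns.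
-/

set_option autoImplicit false

namespace Pool.Agent.Results.MP_d2d690_an.Nivat

/-- Nivat's conjecture: at most `n * k` different `n × k` patterns for one pair `n, k ≥ 1` imply a nonzero period. -/
theorem result (A : Type) [Finite A] (η : ℤ × ℤ → A) (n k : ℕ) (hn : 1 ≤ n) (hk : 1 ≤ k)
    (h : (Set.range fun u : ℤ × ℤ => fun s : Fin n × Fin k =>
      η (u.1 + ((s.1 : ℕ) : ℤ), u.2 + ((s.2 : ℕ) : ℤ))).ncard ≤ n * k) :
    ∃ v : ℤ × ℤ, v ≠ 0 ∧ ∀ z : ℤ × ℤ, η (z + v) = η z := by
  classical
  obtain ⟨m, ⟨e⟩⟩ := Finite.exists_equiv_fin A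
  set B : Finset (ℤ × ℤ) := Finset.Ico (0:ℤ) n ×ˢ Finset.Ico (0:ℤ) k with hB
  have hB1 : ∀ s : B, (s : ℤ × ℤ).1.toNat < n := by
    rintro ⟨s, hs⟩
    rw [hB, Finset.mem_product, Finset.mem_Ico, Finset.mem_Ico] at hs
    show s.1.toNat < n
    omega
  have hB2 : ∀ s : B, (s : ℤ × ℤ).2.toNat < k := by
    rintro ⟨s, hs⟩
    rw [hB, Finset.mem_product, Finset.mem_Ico, Finset.mem_Ico] at hs
    show s.2.toNat < k
    omega
  let Ψ : (Fin n × Fin k → A) → (B → Fin m) := fun p s => e (p (⟨_, hB1 s⟩, ⟨_, hB2 s⟩))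
  have hsub : Pool.Agent.MP_d2d690_an.Pats (fun z => e (η z)) B ⊆
      Ψ '' (Set.range fun u : ℤ × ℤ => fun s : Fin n × Fin k =>
        η (u.1 + ((s.1 : ℕ) : ℤ), u.2 + ((s.2 : ℕ) : ℤ))) := by
    rintro _ ⟨u, rfl⟩
    refine ⟨_, ⟨u, rfl⟩, ?_⟩
    funext s
    obtain ⟨s, hs⟩ := s
    have hs' := hs
    rw [hB, Finset.mem_product, Finset.mem_Ico, Finset.mem_Ico] at hs'
    show e (η (u.1 + ((s.1.toNat : ℕ) : ℤ), u.2 + ((s.2.toNat : ℕ) : ℤ))) = e (η (s + u))
    congr 2
    ext
    · show u.1 + ((s.1.toNat : ℕ) : ℤ) = s.1 + u.1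
      omega
    · show u.2 + ((s.2.toNat : ℕ) : ℤ) = s.2 + u.2
      omega
  have hP : (Pool.Agent.MP_d2d690_an.Pats (fun z => e (η z)) B).ncard ≤ n * k :=
    (Set.ncard_le_ncard hsub (Set.toFinite _)).trans ((Set.ncard_image_le (Set.toFinite _)).trans h)
  obtain ⟨v, hv, hper⟩ := Pool.Agent.MP_d2d690_an.nivat (fun z => e (η z)) (by omega) (by omega) hP
  exact ⟨v, hv, fun z => e.injective (hper z)⟩

end Pool.Agent.Results.MP_d2d690_an.Nivat
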